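import Pool.Agent.Run7.h192.AJ.Alg

/-!
# Injectivity of the Abel–Jacobi map on algebraically trivial cycles

Let `𝒱` be a class of smooth projective varieties over a field `k` (a number field in `ℂ`) which is
closed under products, with Chow groups `C` (rational coefficients), a Weil cohomology theory `W`
(singular cohomology) and Abel–Jacobi maps `AJ` (of Griffiths, tensored with `ℚ`). `Classical`: the
formal properties of `AJ`; `AJ` is injective for divisors; homologically trivial divisors are
algebraically trivial; Poincaré reducibility for the Jacobians of curves.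

A class `x` in `CH^i(X)` is algebraically trivial if `x = Γ_* w` for a divisor class `w` of degree
zero on a curve `c` and a correspondence `Γ` from `c` to `X` (`AlgTriv`).

Let `P` be a set of pairs `(n, r)` which contains for every `N` a pair with `r ≥ N` and
`n - r ≥ N`; for example the pairs `(n, f(n))` for a function `f` with `f(n) → ∞`, `n - f(n) → ∞`.
The following are equivalent:

1. the Abel–Jacobi maps of all varieties are injective, rationally, on algebraically trivial cycles;
2. homologically trivial correspondences kill algebraically trivial cycles;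
3. on every variety the product of an algebraically trivial and a homologically trivial cycle is
   zero, rationally;
4. `D · z = 0` for all varieties `V` and all `r` with `(dim V, r)` in `P`, all algebraically trivial
   divisors `D` on `V` and all homologically trivial cycles `z` of codimension `r` on `V`.
-/

open Pool.Agent.H914 Pool.Agent.R903 Pool.Agent.Run7.h192.AJ

universe u v w x

namespace Pool.Agent.Results.MP_a1cc03_ag.AlgebraicallyTrivialCycles

theorem result {k : Type u} [Field k] {𝒱 : VarClass k} {C : ChowTheory.{u, v} 𝒱}
    {W : WeilTheory.{u, v, w} C} {A : AJMap.{u, v, w, x} W} (hA : A.Classical) (hP : C.Polarized)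
    (hc : ∃ c : 𝒱.Obj, c.dim = 1) (P : ℕ → ℕ → Prop)
    (hPW : ∀ N, ∃ n r, N ≤ r ∧ N + r ≤ n ∧ P n r) :
    [∀ (X : 𝒱.Obj) (i : ℕ), A.InjectiveOnAlg X i,
      ∀ (X Y : 𝒱.Obj) (i j : ℕ), KillAlg W X Y i j,
      ∀ (V : 𝒱.Obj) (i j : ℕ), ProductZero W V i j,
      ∀ (V : 𝒱.Obj) (r : ℕ), P V.dim r → ProductZero W V 1 r].TFAE :=
  alg_tfae hA hP hc P hPW

end Pool.Agent.Results.MP_a1cc03_ag.AlgebraicallyTrivialCycles
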