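import Pool.Agent.Run7.h634.RV.Sec

/-!
# Injectivity of the Abel-Jacobi maps: the codimension above the middle suffices

Let `k` be a number field. Denote by `AJ(X, m)` the statement that the Abel-Jacobi map is injective on
the homologically trivial cycles of codimension `m` on `X` (rational coefficients); `i = dim X - m` is the
dimension of the cycles.

**Theorem.**

1. If `AJ(X, i + 2)` is true for all `X` of dimension `2 i + 2`, then `AJ` is true for the `i`-dimensional
   cycles on all `X` of dimension at least `2 i + 2`.
2. Let `i < i'`. If `AJ(X, i' + 2)` is true for all `X` of dimension `2 i' + 2`, then `AJ` is true for the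
   `i`-dimensional cycles on all `X` (of any dimension).
3. Let `S` be any infinite set of numbers. The conjecture is true (for all `X` and `m`) if and only if
   `AJ(X, m)` is true for all `m ∈ S` and all `X` of dimension `2 m - 2`.
4. Let `i < i'` and `M` be given. If `AJ` is true for the `i'`-dimensional cycles on the rational varieties of
   dimension at least `M`, then it is true for the `i`-dimensional cycles on all `X`.
5. Let `T` be a set of pairs which contains for every `N` a pair `(m, i)` with `m ≥ N` and `i ≥ N`. The
   conjecture is true (for all `X` and `m`) if and only if `AJ(V, m)` is true for all rational varieties `V`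
   with `(m, dim V - m)` in `T`.

Here the rational varieties can be restricted to the blow-ups of projective spaces along smooth
subvarieties. For example the conjecture for one-cycles on fourfolds implies the one for zero-cycles
on all varieties and for one-cycles on all varieties of dimension at least four. Part 5 with
`T = {(n, n - 1)}`, `n` in an infinite set, is the result `RationalVarieties` of helper954 on this page (with
another formalisation), which was found before.

## Proof

(1) Let the dimension `i` of a homologically trivial cycle `z` with Abel-Jacobi class zero on `X` satisfy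
`dim X ≥ 2 i + 3`. By Kleiman's theorem on the smoothing of cycles `z` is represented by disjoint smooth
subvarieties, and a general divisor `Y` of high degree which contains them is smooth. By the weak
Lefschetz theorem `H_l(Y) = H_l(X)` for `l = 2 i` and `l = 2 i + 1`, so `z` is homologically trivial on `Y` with
Abel-Jacobi class zero. Hence we can pass from `X` to `Y`, until the dimension is `2 i + 2`.

(4), (5) Let `V` be the blow-up of a projective space along `X`, of codimension `c`. For `1 ≤ j < c` the motive
`h(X)(-j)` is a direct summand of `h(V)`. So a homologically trivial cycle `z` of codimension `m` and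
dimension `i` on `X` with Abel-Jacobi class zero gives such a cycle of codimension `m + j` and dimension
`i + (c - j)` on `V`, which is zero only if `z` is zero. (2), (3) Combine (1) and (4): the cycles of dimension
`i` on `X` become cycles of dimension `i'` on a variety `V` of large dimension, which are moved by (1) to
varieties of dimension `2 i' + 2`.

The theories `C` and `H` in the statement have the formal properties of the Chow groups with rational
coefficients and of a Weil cohomology theory (`IsChowProj`, `IsWeilProj`); the functoriality of the
Abel-Jacobi maps (`AJMaps`), the motive of a blow-up (`HasBlowUps`, `IsBlowUp`) and the divisors through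
cycles of small dimension (`AJMaps.HasSections`) are the other known results which are used.
-/

set_option autoImplicit false

open CategoryTheory AlgebraicGeometry

universe u v w t

namespace Pool.Agent.Results.MP_a1cc03_ag.CodimensionAboveTheMiddle

open Pool.Agent.H914 Pool.Agent.H914.VarClass Pool.Agent.W492.BB Pool.Agent.TH133
  Pool.Agent.Run7.H634.RV

/-- **The codimension above the middle suffices for the injectivity of the Abel-Jacobi maps.**
`𝒥.Injective X m` says that homologically trivial cycles of codimension `m` on `X` with Abel-Jacobi class
zero are zero (rational coefficients). `𝓡` is a class of varieties which contains, for every `X`,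
blow-ups of all projective spaces of large dimension along `X` (for instance the smooth projective
rational varieties). The five parts are those of the theorem above. -/
theorem result {k : Type u} [Field k] {𝒱 : VarClass k} {C : TheoryData.{u, v, 0} 𝒱 ℚ}
    [IsChowProj C] {K : Type w} [Field K] (H : WeilTheoryData.{u, v, w} C K) [IsWeilProj H]
    (𝒥 : AJMaps.{u, v, w, t} H) {𝓡 : 𝒱.Obj → Prop} (h𝓡 : HasBlowUps C 𝓡)
    (hS : 𝒥.HasSections) :
    (∀ i : ℕ, (∀ X : 𝒱.Obj, X.dim = 2 * i + 2 → 𝒥.Injective X (i + 2)) →
      ∀ (X : 𝒱.Obj) (m : ℕ), m + i = X.dim → X.dim + 2 ≤ 2 * m → 𝒥.Injective X m) ∧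
    (∀ i i' : ℕ, i < i' → (∀ X : 𝒱.Obj, X.dim = 2 * i' + 2 → 𝒥.Injective X (i' + 2)) →
      ∀ (X : 𝒱.Obj) (m : ℕ), m + i = X.dim → 𝒥.Injective X m) ∧
    (∀ S : ℕ → Prop, (∀ N : ℕ, ∃ m : ℕ, N ≤ m ∧ S m) →
      ((∀ (X : 𝒱.Obj) (m : ℕ), 𝒥.Injective X m) ↔
        ∀ (X : 𝒱.Obj) (m : ℕ), S m → X.dim + 2 = 2 * m → 𝒥.Injective X m)) ∧
    (∀ i i' M : ℕ, i < i' →
      (∀ (V : 𝒱.Obj) (m : ℕ), 𝓡 V → M ≤ V.dim → m + i' = V.dim → 𝒥.Injective V m) →
      ∀ (X : 𝒱.Obj) (m : ℕ), m + i = X.dim → 𝒥.Injective X m) ∧
    (∀ T : ℕ → ℕ → Prop, CofinalPairs T → ((∀ (X : 𝒱.Obj) (m : ℕ), 𝒥.Injective X m) ↔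
      ∀ m i : ℕ, T m i → ∀ V : 𝒱.Obj, 𝓡 V → V.dim = m + i → 𝒥.Injective V m)) :=
  aj_above 𝒥 h𝓡 hS

end Pool.Agent.Results.MP_a1cc03_ag.CodimensionAboveTheMiddle
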