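import Pool.Agent.Run7.h848.XG.AJ

/-!
# The kernels of the Abel–Jacobi maps of all powers of a variety over a number field

Let `X` be a smooth projective variety over a number field `k ⊂ ℂ` which satisfies the sign conjecture
`C⁺` (the projector to the even cohomology is algebraic: curves, surfaces, abelian varieties, complete
intersections, products of these, …), `b` the sum of its Betti numbers, `ρ(n)` the rank of the group of
the cycles of all codimensions on `X ^ n` modulo numerical equivalence (`ρ(n) ≤ b ^ n`), and `κ(n)` the
dimension, maybe infinite, of the sum over all `m` of the kernels of the Abel–Jacobi maps `AJ^m` of the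
question for `X ^ n`. Let `κ'(n) ≤ κ(n)` be the dimension of its image modulo smash-nilpotent cycles.

**Theorem.** (1) (law) `κ(n) / ρ(n)` converges for `n → ∞` to a limit `N` in `{0, 1, 2, …, ∞}`, and `N = 0` if
and only if all maps `AJ^m` are injective for all powers of `X`.

(2) (gap) If one `AJ^m` is not injective for one power `X ^ s`, then for ALL `n` with
`2 n ≥ 128 (s + 1) ^ 2 b ^ (2 s + 6)`: `κ(2 n) ≥ ρ(2 n) / 2` and `κ(2 n) ≥ b ^ (2 n) / (2 (n + 1) ^ (b ^ 2))`.

(3) (exponential growth) If `X` is not finite-dimensional in the sense of Kimura then there is a real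
number `c > b` with `κ'(n) ≥ c ^ n` for all large `n`; in particular `N = ∞`. So if `κ'(n) ≤ (b + o(1)) ^ n`
for infinitely many `n`, for example if `N` is finite, then `X` is finite-dimensional.

(4) More precisely, if `y` is a homologically trivial correspondence from `X ^ s` to itself which is not
nilpotent, then for ALL `n ≥ 0`

  `κ'(2 s (n + 2)) ≥ ∑ i ≤ n, (n choose i) ρ(2 s (n - i)) ≥ (b ^ (2 s) + 1) ^ n / (s n + 1) ^ (b ^ 2)`.

It is well known that the injectivity of the Abel–Jacobi maps for all powers implies that homologically
trivial correspondences have square zero, and that `X` is finite-dimensional. Nothing is assumed here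
on the finiteness of the Chow groups.

The setting. `C` is the category of Chow motives over `k` (graded pieces added), `T = h(X)`,
`tp T n = h(X ^ n)`, `R` the singular cohomology with coefficients extended to an algebraically closed
field, `homSub` the homologically trivial cycles. The structure `AbelJacobi` records what is used on
the maps `AJ`: they are linear and compatible with correspondences, and homologically trivial
correspondences act as zero on the intermediate Jacobians.

Proof of (4). If `y` is not algebraic over `ℚ` (modulo smash-nilpotence) the powers `y ^ j`, `j ≥ 2`, are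
infinitely many independent elements of the kernel. Otherwise a multiple `p` of `y` is an idempotent
different from `0` (Fitting). Let `P = X ^ s × X ^ s` and `z` the cycle `p` on `P`. The motive `P` is the sum of
`A` and `B`, where `B` is the image of `1 × p`, with `z` in `B`. The powers of `P` are the sums of products
of copies of `A` and of `B`. In a product with `i` factors `B` we insert `z` into these factors and arbitrary
cycles in the product of the others; these cycles are independent modulo numerical equivalence and
smash-nilpotence, by contractions, since `p ∘ ⋯ ∘ p = p`. With two more factors `P` and `z` inserted into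
them, all these cycles are products of two homologically trivial correspondences, and are therefore
in the kernel. (1) and (2) are the law and the gap of `N64/AF` for the functor of the kernels (for the
`p`-adic Abel–Jacobi maps see also `MP_787500_nt.LawForAllPowers` of helper184).
-/

set_option autoImplicit false

open CategoryTheory MonoidalCategory Filter
open Pool.Agent.Y112.SR Pool.Agent.Y112.KD Pool.Agent.N64.AF Pool.Agent.Run7.h848.XG
open scoped ENNReal

namespace Pool.Agent.Results.MP_a1cc03_ag.KernelsOnPowers

universe v u w x

/-- The kernels of the Abel–Jacobi maps of all powers: law, gap and exponential growth. -/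
theorem result {C : Type u} [Category.{v} C] [Preadditive C] [MonoidalCategory C]
    [MonoidalPreadditive C] [SymmetricCategory C] [RightRigidCategory C]
    [Linear ℚ C] [MonoidalLinear ℚ C] [IsIdempotentComplete C]
    {K : Type w} [Field K] [IsAlgClosed K] [Algebra ℚ K] {R : SuperRealisation C K}
    {T : C} [ExactPairing T T] (h : IsPow ℚ R T) (A : AbelJacobi.{v, u, w, 0, x} h.real) :
    (∀ (m : ℕ) (y : End (tp T m)), R.H.map (y : tp T m ⟶ tp T m) = 0 → ¬ IsNilpotent y →
      ∀ n : ℕ, ((∑ i ∈ Finset.range (n + 1),
        n.choose i * numRank ℚ (tp T (2 * m * (n - i))) : ℕ) : ℕ∞) ≤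
          deepDim A.ker (tp T (2 * m * (n + 2)))) ∧
    (∀ m n : ℕ, (bt R T ^ (2 * m) + 1) ^ n ≤ (m * n + 1) ^ (bt R T ^ 2) *
      ∑ i ∈ Finset.range (n + 1), n.choose i * numRank ℚ (tp T (2 * m * (n - i)))) ∧
    (Pool.Agent.R905.IsKimuraFinite T ∨
      ∃ c : ℝ, (bt R T : ℝ) < c ∧ ∀ᶠ n : ℕ in atTop,
        ENNReal.ofReal (c ^ n) ≤ ((deepDim A.ker (tp T n) : ℕ∞) : ℝ≥0∞)) ∧
    (∃ N : ℕ∞, RatioTo ℚ T (fun n => dimE ℚ (A.ker (tp T n))) N ∧
      (N = 0 ↔ ∀ n, A.Inj (tp T n)) ∧ (N ≠ ⊤ → Pool.Agent.R905.IsKimuraFinite T)) ∧
    ∀ m n : ℕ, ¬ A.Inj (tp T m) → 128 * (m + 1) ^ 2 * bt R T ^ (2 * m + 6) ≤ 2 * n →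
      Pool.Agent.Run7.h184.AJ.Large ℚ R T n (dimE ℚ (A.ker (tp T (2 * n)))) :=
  aj_main h A

end Pool.Agent.Results.MP_a1cc03_ag.KernelsOnPowers
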