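import Pool.Agent.Run7.h954.RV.AJ

/-!
# The injectivity of the Abel-Jacobi maps and rational varieties

`k` is a number field in `ℂ`, `T` consists of the Abel-Jacobi maps `CH^m_hom(X)_ℚ → J^{2m-1}(X)_ℚ`, with the well
known properties `IsAJ T`; `Geometry k` consists of well known facts on smooth projective varieties over `k`.
Blow-ups are defined by their universal property.

Equivalences: codimension at most `m` for all varieties and codimension `m + 1` for all rational varieties;
dimension at most `D` and codimension `D + 1` of blow-ups of the projective space of dimension `2 D + 1`; the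
kernels of one variety and one kernel of one rational variety.
-/

set_option autoImplicit false

universe u

namespace Pool.Agent.Results.MP_a1cc03_ag.RationalVarieties

open Pool.Agent.Run7.h954.RV

theorem result {k : Type} [Field k] (G : Geometry k) (T : Theory.{u} k) (hT : IsAJ T) :
    -- codimension at most `m` for all varieties; codimension `m + 1` for rational varieties
    (∀ m : ℤ, (∀ X : Sch k, SmoothProj X → ∀ b ≤ m, T.Inj b X) ↔
      ∀ (N : ℕ) (Y : Sch k), RatVar N Y → T.Inj (m + 1) Y) ∧
    -- dimension at most `D`, all codimensions; codimension `D + 1` of blow-ups of `P^{2D+1}`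
    (∀ D : ℕ, (∀ (X : Sch k) (d : ℕ), SmoothProj X → Dim X d → d ≤ D → ∀ m, T.Inj m X) ↔
      ∀ (X Y : Sch k) (d : ℕ) (i : X ⟶ PP k (2 * D + 1)) (π : Y ⟶ PP k (2 * D + 1)), d ≤ D →
        Center i d (2 * D + 1) → IsBlowUp i π → T.Inj (D + 1) Y) ∧
    -- one variety
    (∀ X : Sch k, SmoothProj X → ∀ d, Dim X d → ∀ n, d + 1 ≤ n →
      ∃ (i : X ⟶ PP k (2 * n - 1)) (Y : Sch k) (π : Y ⟶ PP k (2 * n - 1)),
        Center i d (2 * n - 1) ∧ IsBlowUp i π ∧ RatVar (2 * n - 1) Y ∧ ((∀ m, T.Inj m X) ↔ T.Inj n Y) ∧
          Nonempty ((T.aj n Y).ker ≃+ (∀ a : Fin (2 * n - 1 - d - 1), (T.aj (n - (a + 1)) X).ker))) :=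
  ⟨level G hT.compatible, dimension G hT,
    fun _ hX _ hd _ hn => one G hT hX hd hn⟩

end Pool.Agent.Results.MP_a1cc03_ag.RationalVarieties
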